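import Pool.Agent.H83.HM2.NSB

set_option autoImplicit false

open Polynomial MeasureTheory Filter Topology

namespace HM

theorem Pr_mono83 {p κ κ' : ℝ} {J : ℕ} {w : ℂ[X]} {w' : RR} {M s : ℝ}
    (h : Pr p κ J w w' M s) (hk : κ ≤ κ') : Pr p κ' J w w' M s :=
  { h with
    inv := h.inv.trans hk
    pow1 := fun n a b => (h.pow1 n a b).trans hk
    pow2 := fun n a b => (h.pow2 n a b).trans hk
    Ms := fun i hi => (h.Ms i hi).trans hk }

theorem supp_sb83 {G H : Type} [AddCommGroup G] [AddCommGroup H] (h : G →+ H)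
    (y : AddMonoidAlgebra ℂ G) (m : H) (hm : m ∈ (sb h y).coeff.support) :
    ∃ g ∈ y.coeff.support, m = h g := by
  classical
  have h2 : sb h y = ∑ α ∈ y.coeff.support, AddMonoidAlgebra.single (h α) (y.coeff α) := by
    conv_lhs => rw [eq_sum83 y]
    rw [map_sum]
    exact Finset.sum_congr rfl fun α _ => sb_single83 h α _
  rw [h2, Finsupp.mem_support_iff, AddMonoidAlgebra.coeff_sum, Finsupp.finsetSum_apply] at hm
  obtain ⟨g, hg, hne⟩ := Finset.exists_ne_zero_of_sum_ne_zero hm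
  refine ⟨g, hg, ?_⟩
  by_contra hcon
  apply hne
  rw [AddMonoidAlgebra.coeff_single, Finsupp.single_apply, if_neg (fun e => hcon e.symm)]

theorem phi_ind83 {N : ℕ} (w' : RR) (i : ℕ) (c : ℂ) :
    phi w' (fun S : Finset (Fin N) => if S.card = i then c else 0) =
      c • ∑ S ∈ (Finset.univ : Finset (Fin N)).powersetCard i, ∏ l ∈ S, em l w' := by
  unfold phi
  simp only [ite_smul, zero_smul]
  rw [← Finset.sum_filter, Finset.univ_filter_card_eq, Finset.smul_sum]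

theorem chi_smul83 {G : Type} [AddCommGroup G] (χ : AddMonoidAlgebra ℂ G →+* ℂ)
    (h1 : ∀ g c, χ (AddMonoidAlgebra.single g c) = c * χ (AddMonoidAlgebra.single g 1))
    (c : ℂ) (x : AddMonoidAlgebra ℂ G) : χ (c • x) = c * χ x := by
  have h2 : c • x = AddMonoidAlgebra.single 0 c * x := by
    calc c • x = c • (1 * x) := by rw [one_mul]
      _ = (c • (1 : AddMonoidAlgebra ℂ G)) * x := (smul_mul_assoc c 1 x).symm
      _ = AddMonoidAlgebra.single 0 c * x := by
        rw [AddMonoidAlgebra.one_def, AddMonoidAlgebra.smul_single, smul_eq_mul, mul_one]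
  rw [h2, map_mul, h1 0 c, ← AddMonoidAlgebra.one_def, map_one, mul_one]

/-- the constant of `E_i` -/
noncomputable def cE83 (p : ℝ) (N i : ℕ) : ℝ :=
  (N : ℝ) ^ ((i : ℝ) * (1 - 1 / p)) * ((N - i).factorial : ℝ) / (N.factorial : ℝ)

theorem cE83_nonneg (p : ℝ) (N i : ℕ) : 0 ≤ cE83 p N i := by
  unfold cE83; positivity

theorem cE83_le {p : ℝ} (hp : 2 < p) {N i : ℕ} (hN : 1 ≤ N) (hi : i ≤ N) :
    cE83 p N i ≤ (N : ℝ) ^ N := by
  unfold cE83
  have hN1 : (1 : ℝ) ≤ N := by exact_mod_cast hN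
  have h1 : (N : ℝ) ^ ((i : ℝ) * (1 - 1 / p)) ≤ (N : ℝ) ^ N := by
    rw [← Real.rpow_natCast (N : ℝ) N]
    apply Real.rpow_le_rpow_of_exponent_le hN1
    have h2 : 0 ≤ 1 / p := by positivity
    have h3 : (i : ℝ) ≤ N := by exact_mod_cast hi
    have h4 : (0 : ℝ) ≤ i := by positivity
    nlinarith
  have h2 : ((N - i).factorial : ℝ) ≤ (N.factorial : ℝ) := by
    exact_mod_cast Nat.factorial_le (Nat.sub_le N i)
  have h3 : (0 : ℝ) < (N.factorial : ℝ) := by exact_mod_cast Nat.factorial_pos N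
  rw [div_le_iff₀ h3]
  exact mul_le_mul h1 h2 (by positivity) (by positivity)

theorem cE83_choose {p : ℝ} (hp : 2 < p) {N i : ℕ} (hN : 1 ≤ N) (hi : i ≤ N) :
    cE83 p N i * ((N.choose i : ℕ) : ℝ) ^ (1 / p) =
      ((N : ℝ) ^ i / (N.descFactorial i : ℝ)) ^ (1 - 1 / p) * (i.factorial : ℝ) ^ (-(1 / p)) := by
  have hN1 : (0 : ℝ) < N := by exact_mod_cast hN
  have hp0 : 0 < p := by linarith
  have hd : (0 : ℝ) < (N.descFactorial i : ℝ) := by
    exact_mod_cast Nat.descFactorial_pos.2 hi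
  have hi0 : (0 : ℝ) < (i.factorial : ℝ) := by exact_mod_cast Nat.factorial_pos i
  have hf : (0 : ℝ) < (N.factorial : ℝ) := by exact_mod_cast Nat.factorial_pos N
  have hni : (0 : ℝ) < ((N - i).factorial : ℝ) := by exact_mod_cast Nat.factorial_pos _
  have e1 : ((N - i).factorial : ℝ) / (N.factorial : ℝ) = (N.descFactorial i : ℝ)⁻¹ := by
    have := Nat.factorial_mul_descFactorial hi
    have h2 : ((N - i).factorial : ℝ) * (N.descFactorial i : ℝ) = (N.factorial : ℝ) := by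
      exact_mod_cast this
    rw [← h2]; field_simp
  have e2 : ((N.choose i : ℕ) : ℝ) = (N.descFactorial i : ℝ) / (i.factorial : ℝ) := by
    have := Nat.descFactorial_eq_factorial_mul_choose N i
    rw [this]; push_cast; field_simp
  unfold cE83
  rw [mul_div_assoc, e1, e2, Real.div_rpow hd.le hi0.le, Real.div_rpow (by positivity) hd.le,
    ← Real.rpow_natCast (N : ℝ) i, ← Real.rpow_mul hN1.le, Real.rpow_neg hi0.le,
    Real.rpow_sub hd, Real.rpow_one]
  have := Real.rpow_pos_of_pos hd (1 / p)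
  have := Real.rpow_pos_of_pos hi0 (1 / p)
  field_simp

theorem cE83_step {p : ℝ} {N i j : ℕ} (hN : 1 ≤ N) (hi : i ≤ N) (hj : j ≤ i) :
    ((N : ℝ) ^ (-(1 - 1 / p))) ^ j * cE83 p N i *
      (((N - i + j).factorial : ℝ) / ((N - i).factorial : ℝ)) = cE83 p N (i - j) := by
  have hN1 : (0 : ℝ) < N := by exact_mod_cast hN
  have hf : (0 : ℝ) < (N.factorial : ℝ) := by exact_mod_cast Nat.factorial_pos N
  have hni : (0 : ℝ) < ((N - i).factorial : ℝ) := by exact_mod_cast Nat.factorial_pos _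
  have e : N - i + j = N - (i - j) := by omega
  have e2 : ((i - j : ℕ) : ℝ) = (i : ℝ) - j := by
    rw [Nat.cast_sub hj]
  unfold cE83
  rw [e, e2, ← Real.rpow_natCast, ← Real.rpow_mul hN1.le]
  have h3 : (N : ℝ) ^ (((i : ℝ) - j) * (1 - 1 / p)) =
      (N : ℝ) ^ (-(1 - 1 / p) * (j : ℝ)) * (N : ℝ) ^ ((i : ℝ) * (1 - 1 / p)) := by
    rw [← Real.rpow_add hN1]; congr 1; ring
  rw [h3]
  field_simp

theorem MD1_proved (hW : S_WPW) (hSY : S_SYM) (hA : S_ACT) (hD : S_DEL) (hN : S_NRM)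
    (hT : S_TEN) (hC : S_CRL) : S_MD1 := by
  classical
  intro p hp N ρ hN1 hρ
  have hN1' : (1 : ℝ) ≤ N := by exact_mod_cast hN1
  have hN0 : (0 : ℝ) < N := by linarith
  have hp1 : (1 : ℝ) ≤ p := by linarith
  set q : ℝ := p / (p - 1) with hq
  have hq1 : 1 ≤ q := by
    rw [hq, le_div_iff₀ (by linarith)]; linarith
  have hqi : 1 / q = 1 - 1 / p := by
    rw [hq]; field_simp
  -- the constants κ of ACT
  set ρ' : ℝ := ρ / (N : ℝ) ^ N with hρ'
  have hρ'0 : 0 < ρ' := by positivity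
  have hact : ∀ i j : ℕ, ∃ κ : ℝ, 0 < κ ∧ ∀ (J : ℕ) (w : ℂ[X]) (w' : RR) (M s : ℝ), j ≤ J →
      Pr p κ J w w' M s → Nn p ((∑ l : Fin N, em l (tl w)) ^ j *
        phi w' (fun S : Finset (Fin N) => if S.card = i then (1 : ℂ) else 0) -
        phi w' (dlt^[j] (fun S : Finset (Fin N) => if S.card = i then (1 : ℂ) else 0))) ≤ ρ' :=
    fun i j => hA p hp N j _ ρ' hρ'0
  choose κf hκf0 hκf using hact
  obtain ⟨κ1, hκ10, hκ1⟩ : ∃ κ1 : ℝ, 0 < κ1 ∧ ∀ i ≤ N, ∀ j ≤ N, κ1 ≤ κf i j := by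
    have hne : ((Finset.range (N + 1)) ×ˢ (Finset.range (N + 1))).Nonempty :=
      ⟨(0, 0), by simp⟩
    obtain ⟨w0, hw0, hmin⟩ := Finset.exists_min_image _ (fun w : ℕ × ℕ => κf w.1 w.2) hne
    refine ⟨κf w0.1 w0.2, hκf0 _ _, fun i hi j hj => hmin (i, j) ?_⟩
    simp only [Finset.mem_product, Finset.mem_range]
    omega
  set κ : ℝ := min κ1 (ρ / ((N : ℝ) ^ N * 2 ^ N * (N : ℝ) ^ (N + 1))) with hκ
  have hκ0 : 0 < κ := by positivity
  obtain ⟨w, w', M, s0, hPr⟩ := hW p hp κ N hκ0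
  have hMs := hPr.Ms
  have hs0 : 0 ≤ s0 := hPr.nonnegs
  have hM0 : 0 ≤ M := hPr.nonnegM
  have hκρ : (N : ℝ) ^ N * 2 ^ N * (N : ℝ) ^ (N + 1) * κ ≤ ρ := by
    have h1 : κ ≤ ρ / ((N : ℝ) ^ N * 2 ^ N * (N : ℝ) ^ (N + 1)) := min_le_right _ _
    rw [le_div_iff₀ (by positivity)] at h1
    linarith
  set β : ℝ := (N : ℝ) ^ (-(1 - 1 / p)) with hβ
  have hβ0 : 0 < β := Real.rpow_pos_of_pos hN0 _
  have hβ1 : β ≤ 1 := by
    rw [hβ]
    apply Real.rpow_le_one_of_one_le_of_nonpos hN1'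
    have : 1 / p ≤ 1 := by rw [div_le_one (by linarith)]; linarith
    linarith
  set Sw : AddMonoidAlgebra ℂ (Fin N → ℤ) := ∑ l : Fin N, em l (tl w) with hSw
  set e : ℕ → AddMonoidAlgebra ℂ (Fin N → ℤ) := fun i =>
    ∑ S ∈ (Finset.univ : Finset (Fin N)).powersetCard i, ∏ l ∈ S, em l w' with he
  have hw0 : (tl w).coeff 0 = 0 := by
    rw [hC.tl]; simpa using hPr.w0
  have hsy1 := (hSY q N (tl w) hq1 hw0 hPr.nq).1
  have hsy2 := (hSY p N w' hp1 (hPr.w0' 0 le_rfl) hPr.np).2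
  have hnorm : ∀ c : ℝ, 0 ≤ c → ‖(c : ℂ)‖ = c := fun c hc => by
    rw [Complex.norm_real, Real.norm_eq_abs, abs_of_nonneg hc]
  refine ⟨(β : ℂ) • Sw, fun i => (cE83 p N i : ℂ) • e i, (N : ℝ) * β * s0, ?_, ?_, ?_, ?_, ?_, ?_,
    ?_, ?_, ?_⟩
  · positivity
  · -- E 0 = 1
    have h1 : cE83 p N 0 = 1 := by
      unfold cE83
      have : (N.factorial : ℝ) ≠ 0 := by exact_mod_cast (Nat.factorial_pos N).ne'
      simp [this]
    show (cE83 p N 0 : ℂ) • e 0 = 1
    rw [h1, he]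
    simp
  · -- support
    intro α hα
    rw [Finsupp.mem_support_iff, AddMonoidAlgebra.coeff_smul_apply, hSw,
      AddMonoidAlgebra.coeff_sum, Finsupp.finsetSum_apply] at hα
    have hα' : ∑ l : Fin N, (em l (tl w)).coeff α ≠ 0 := by
      intro h0; rw [h0] at hα; simp at hα
    obtain ⟨l, -, hl⟩ := Finset.exists_ne_zero_of_sum_ne_zero hα'
    obtain ⟨g, hg, rfl⟩ := supp_sb83 _ _ _ (Finsupp.mem_support_iff.2 hl)
    rw [Finsupp.mem_support_iff, hC.tl] at hg
    have hg0 : 0 ≤ g := by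
      by_contra hcon
      rw [if_neg hcon] at hg
      exact hg rfl
    have hg1 : g ≠ 0 := by
      rintro rfl
      apply hg
      simpa using hPr.w0
    constructor
    · intro a
      by_cases ha : a = l
      · subst ha; simpa using hg0
      · simp [ha]
    · intro h0
      apply hg1
      have := congrFun h0 l
      simpa using this
  · -- Nn q b ≤ 1
    rw [hN.smul q _ _ hq1, hnorm β hβ0.le]
    have h1 : Nn q Sw ≤ (N : ℝ) ^ (1 - 1 / p) := by rw [← hqi]; exact hsy1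
    calc β * Nn q Sw ≤ β * (N : ℝ) ^ (1 - 1 / p) := mul_le_mul_of_nonneg_left h1 hβ0.le
      _ = 1 := by rw [hβ, ← Real.rpow_add hN0]; simp
  · -- Nn p (E i)
    intro i hi
    show Nn p ((cE83 p N i : ℂ) • e i) ≤ _
    rw [hN.smul p _ _ hp1, hnorm _ (cE83_nonneg p N i), ← cE83_choose hp hN1 hi]
    exact mul_le_mul_of_nonneg_left (hsy2 i) (cE83_nonneg p N i)
  · -- action
    intro i hi j hj
    have h1 := hκf i j N w w' M s0 (hj.trans hi) (Pr_mono83 hPr ((min_le_left _ _).trans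
      (hκ1 i hi j (hj.trans hi))))
    rw [hD N i j hj hi] at h1
    have e1 : phi w' (fun S : Finset (Fin N) => if S.card = i then (1 : ℂ) else 0) = e i := by
      rw [phi_ind83, one_smul]
    have e2 : (((N - i + j).factorial : ℂ) / ((N - i).factorial : ℂ)) =
        (((((N - i + j).factorial : ℝ) / ((N - i).factorial : ℝ) : ℝ)) : ℂ) := by push_cast; rfl
    rw [e1, phi_ind83, e2] at h1
    have h2 : ((β : ℂ) • Sw) ^ j * ((cE83 p N i : ℂ) • e i) - (cE83 p N (i - j) : ℂ) • e (i - j) =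
        ((β ^ j * cE83 p N i : ℝ) : ℂ) • (Sw ^ j * e i -
          (((((N - i + j).factorial : ℝ) / ((N - i).factorial : ℝ) : ℝ)) : ℂ) • e (i - j)) := by
      rw [_root_.smul_pow, smul_mul_smul_comm, smul_sub, smul_smul, ← cE83_step hN1 hi hj]
      push_cast
      rfl
    show Nn p (((β : ℂ) • Sw) ^ j * ((cE83 p N i : ℂ) • e i) -
      (cE83 p N (i - j) : ℂ) • e (i - j)) ≤ ρ
    rw [h2, hN.smul p _ _ hp1, hnorm _ (mul_nonneg (by positivity) (cE83_nonneg p N i))]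
    have h3 : β ^ j * cE83 p N i ≤ (N : ℝ) ^ N := by
      calc β ^ j * cE83 p N i ≤ 1 * (N : ℝ) ^ N := by
            apply mul_le_mul (pow_le_one₀ hβ0.le hβ1) (cE83_le hp hN1 hi) (cE83_nonneg p N i)
              zero_le_one
        _ = (N : ℝ) ^ N := one_mul _
    calc β ^ j * cE83 p N i * Nn p _ ≤ (N : ℝ) ^ N * ρ' :=
          mul_le_mul h3 h1 (hN.nonneg _ _) (by positivity)
      _ = ρ := by rw [hρ']; field_simp
  · -- Su
    intro χ hχ1 hχ2
    rw [chi_smul83 χ hχ1, hSw, map_sum, norm_mul, hnorm β hβ0.le]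
    have h1 : ∀ l : Fin N, ‖χ (em l (tl w))‖ ≤ s0 := by
      intro l
      have := hPr.ns (χ.comp (em l)) ?_ ?_
      · exact this
      · intro g c
        show χ (em l (AddMonoidAlgebra.single g c)) = c * χ (em l (AddMonoidAlgebra.single g 1))
        unfold em
        rw [sb_single83, sb_single83]
        exact hχ1 _ _
      · intro g
        show ‖χ (em l (AddMonoidAlgebra.single g 1))‖ = 1
        unfold em
        rw [sb_single83]
        exact hχ2 _
    have h2 : ‖∑ l : Fin N, χ (em l (tl w))‖ ≤ (N : ℝ) * s0 := by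
      refine (norm_sum_le _ _).trans ?_
      refine (Finset.sum_le_sum fun l _ => h1 l).trans ?_
      simp
    calc β * ‖∑ l : Fin N, χ (em l (tl w))‖ ≤ β * ((N : ℝ) * s0) :=
          mul_le_mul_of_nonneg_left h2 hβ0.le
      _ = (N : ℝ) * β * s0 := by ring
  · -- s ≤ ρ
    have h1 := hMs 0 (Nat.zero_le _)
    simp only [pow_zero, one_mul, zero_add, pow_one] at h1
    have h2 : (N : ℝ) * β * s0 ≤ N * κ := by
      calc (N : ℝ) * β * s0 ≤ N * 1 * κ := by gcongr
        _ = N * κ := by ring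
    have h3 : (N : ℝ) ≤ (N : ℝ) ^ N * 2 ^ N * (N : ℝ) ^ (N + 1) := by
      have a1 : (1 : ℝ) ≤ (N : ℝ) ^ N := one_le_pow₀ hN1'
      have a2 : (1 : ℝ) ≤ 2 ^ N := one_le_pow₀ one_le_two
      have a3 : (N : ℝ) ≤ (N : ℝ) ^ (N + 1) := by
        calc (N : ℝ) = (N : ℝ) ^ 1 := (pow_one _).symm
          _ ≤ (N : ℝ) ^ (N + 1) := pow_le_pow_right₀ hN1' (by omega)
      calc (N : ℝ) = 1 * 1 * N := by ring
        _ ≤ (N : ℝ) ^ N * 2 ^ N * (N : ℝ) ^ (N + 1) := by gcongr
    exact h2.trans ((mul_le_mul_of_nonneg_right h3 hκ0.le).trans hκρ)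
  · -- Nn 2
    intro i hi
    show Nn 2 ((cE83 p N i : ℂ) • e i) * ((N : ℝ) * β * s0) ^ (i + 1) ≤ ρ
    rw [hN.smul 2 _ _ (by norm_num), hnorm _ (cE83_nonneg p N i)]
    have h1 : ∀ S : Finset (Fin N), Nn 2 (∏ l ∈ S, em l w') ≤ M ^ S.card := by
      intro S
      have e1 : ∏ l ∈ S, em l w' = ∏ a : Fin N, em a (if a ∈ S then w' else 1) := by
        rw [← Finset.prod_subset (Finset.subset_univ S)]
        · exact Finset.prod_congr rfl fun a ha => by rw [if_pos ha]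
        · intro a _ ha
          rw [if_neg ha, map_one]
      rw [e1, hT.nrm N (fun a => if a ∈ S then w' else 1) 2 (by norm_num)]
      have e2 : ∏ a : Fin N, Nn 2 (if a ∈ S then w' else (1 : RR)) = ∏ a ∈ S, Nn 2 w' := by
        rw [← Finset.prod_subset (Finset.subset_univ S) (f := fun a => Nn 2 (if a ∈ S then w' else (1 : RR)))]
        · exact Finset.prod_congr rfl fun a ha => by rw [if_pos ha]
        · intro a _ ha
          rw [if_neg ha, hN.one 2 (by norm_num)]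
      rw [e2, Finset.prod_const]
      exact pow_le_pow_left₀ (hN.nonneg _ _) hPr.nM _
    have h2 : Nn 2 (e i) ≤ 2 ^ N * M ^ i := by
      refine (hN.sum 2 _ _ (by norm_num)).trans ?_
      calc ∑ S ∈ (Finset.univ : Finset (Fin N)).powersetCard i, Nn 2 (∏ l ∈ S, em l w')
          ≤ ∑ S ∈ (Finset.univ : Finset (Fin N)).powersetCard i, M ^ i := by
            refine Finset.sum_le_sum fun S hS => ?_
            have := (Finset.mem_powersetCard.1 hS).2
            rw [← this]; exact h1 S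
        _ = (N.choose i : ℝ) * M ^ i := by simp
        _ ≤ 2 ^ N * M ^ i := by
            apply mul_le_mul_of_nonneg_right _ (by positivity)
            exact_mod_cast Nat.choose_le_two_pow N i
    have h3 : ((N : ℝ) * β * s0) ^ (i + 1) ≤ (N : ℝ) ^ (N + 1) * s0 ^ (i + 1) := by
      rw [mul_pow, mul_pow]
      apply mul_le_mul_of_nonneg_right _ (by positivity)
      calc (N : ℝ) ^ (i + 1) * β ^ (i + 1) ≤ (N : ℝ) ^ (N + 1) * 1 :=
            mul_le_mul (pow_le_pow_right₀ hN1' (by omega)) (pow_le_one₀ hβ0.le hβ1)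
              (by positivity) (by positivity)
        _ = (N : ℝ) ^ (N + 1) := mul_one _
    have h4 := hMs i hi
    calc cE83 p N i * Nn 2 (e i) * ((N : ℝ) * β * s0) ^ (i + 1)
        ≤ (N : ℝ) ^ N * (2 ^ N * M ^ i) * ((N : ℝ) ^ (N + 1) * s0 ^ (i + 1)) := by
          apply mul_le_mul _ h3 (by positivity) (by positivity)
          exact mul_le_mul (cE83_le hp hN1 hi) h2 (hN.nonneg _ _) (by positivity)
      _ = (N : ℝ) ^ N * 2 ^ N * (N : ℝ) ^ (N + 1) * (M ^ i * s0 ^ (i + 1)) := by ring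
      _ ≤ (N : ℝ) ^ N * 2 ^ N * (N : ℝ) ^ (N + 1) * κ :=
          mul_le_mul_of_nonneg_left h4 (by positivity)
      _ ≤ ρ := hκρ

end HM
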