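import Pool.Agent.H67.HM.Stm2

set_option autoImplicit false

open Polynomial MeasureTheory Filter Topology

namespace HM

theorem sb_single83 {G H : Type} [AddCommGroup G] [AddCommGroup H] (h : G →+ H) (g : G) (c : ℂ) :
    sb h (AddMonoidAlgebra.single g c) = AddMonoidAlgebra.single (h g) c := by
  unfold sb
  simp

theorem eq_sum83 {G : Type} [AddCommGroup G] (x : AddMonoidAlgebra ℂ G) :
    x = ∑ k ∈ x.coeff.support, AddMonoidAlgebra.single k (x.coeff k) := by
  conv_lhs => rw [← AddMonoidAlgebra.sum_coeff_single x]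
  rfl

theorem mul_sb83 {G H : Type} [AddCommGroup G] [AddCommGroup H] (h : G →+ H)
    (x : AddMonoidAlgebra ℂ H) (y : AddMonoidAlgebra ℂ G) :
    x * sb h y = ∑ k ∈ x.coeff.support, ∑ α ∈ y.coeff.support,
      AddMonoidAlgebra.single (k + h α) (x.coeff k * y.coeff α) := by
  conv_lhs => rw [eq_sum83 x, eq_sum83 y]
  rw [map_sum, Finset.sum_mul]
  refine Finset.sum_congr rfl fun k _ => ?_
  rw [Finset.mul_sum]
  refine Finset.sum_congr rfl fun α _ => ?_
  rw [sb_single83, AddMonoidAlgebra.single_mul_single]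

open Classical in
theorem coeff_mul_sb83 {G H : Type} [AddCommGroup G] [AddCommGroup H] (h : G →+ H)
    (x : AddMonoidAlgebra ℂ H) (y : AddMonoidAlgebra ℂ G) (m : H) :
    (x * sb h y).coeff m = ∑ w ∈ x.coeff.support ×ˢ y.coeff.support,
      if w.1 + h w.2 = m then x.coeff w.1 * y.coeff w.2 else 0 := by
  rw [mul_sb83, Finset.sum_product]
  simp only [AddMonoidAlgebra.coeff_sum, Finsupp.coe_finset_sum, Finset.sum_apply,
    AddMonoidAlgebra.coeff_single_apply]

open Classical in
theorem Nn_mul_sb83 {G H : Type} [AddCommGroup G] [AddCommGroup H] (h : G →+ H)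
    (x : AddMonoidAlgebra ℂ H) (y : AddMonoidAlgebra ℂ G) (r : ℝ) (hr : 1 ≤ r)
    (hinj : Set.InjOn (fun w : H × G => w.1 + h w.2)
      (x.coeff.support ×ˢ y.coeff.support : Finset (H × G))) :
    Nn r (x * sb h y) = Nn r x * Nn r y := by
  have hr0 : r ≠ 0 := by linarith
  set z := x * sb h y with hz
  set P := x.coeff.support ×ˢ y.coeff.support with hP
  have hc : ∀ w ∈ P, z.coeff (w.1 + h w.2) = x.coeff w.1 * y.coeff w.2 := by
    intro w hw
    rw [hz, coeff_mul_sb83, Finset.sum_eq_single w]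
    · rw [if_pos rfl]
    · intro w' hw' hne
      rw [if_neg]
      intro he
      exact hne (hinj hw' hw he)
    · intro h'; exact absurd hw h'
  have hsup : z.coeff.support ⊆ P.image (fun w : H × G => w.1 + h w.2) := by
    intro m hm
    rw [Finsupp.mem_support_iff] at hm
    by_contra hcon
    apply hm
    rw [hz, coeff_mul_sb83]
    refine Finset.sum_eq_zero fun w hw => ?_
    rw [if_neg]
    intro he
    exact hcon (Finset.mem_image.2 ⟨w, hw, he⟩)
  have h1 : ∑ k ∈ z.coeff.support, ‖z.coeff k‖ ^ r =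
      (∑ k ∈ x.coeff.support, ‖x.coeff k‖ ^ r) * ∑ k ∈ y.coeff.support, ‖y.coeff k‖ ^ r := by
    rw [Finset.sum_subset hsup (fun k _ hk => by
      rw [Finsupp.notMem_support_iff] at hk
      rw [hk, norm_zero, Real.zero_rpow hr0]), Finset.sum_image hinj, Finset.sum_mul_sum,
      ← Finset.sum_product']
    refine Finset.sum_congr rfl fun w hw => ?_
    rw [hc w hw, norm_mul, Real.mul_rpow (norm_nonneg _) (norm_nonneg _)]
  unfold Nn
  rw [h1, Real.mul_rpow]
  · exact Finset.sum_nonneg fun k _ => Real.rpow_nonneg (norm_nonneg _) _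
  · exact Finset.sum_nonneg fun k _ => Real.rpow_nonneg (norm_nonneg _) _

theorem Nn_one83 {G : Type} [AddCommGroup G] (r : ℝ) : Nn r (1 : AddMonoidAlgebra ℂ G) = 1 := by
  classical
  unfold Nn
  have : (1 : AddMonoidAlgebra ℂ G).coeff = Finsupp.single 0 1 := by
    rw [AddMonoidAlgebra.one_def]; rfl
  rw [this, Finsupp.support_single_ne_zero _ one_ne_zero]
  simp

theorem NSB_proved : S_NSB := by
  classical
  intro G _ h y W hsep
  have hinj : ∀ x : RR, (∀ k ∈ x.coeff.support, |k| ≤ W) →
      Set.InjOn (fun w : ℤ × G => w.1 + h w.2)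
      (x.coeff.support ×ˢ y.coeff.support : Finset (ℤ × G)) := by
    rintro x hx ⟨k, α⟩ hw ⟨k', β⟩ hw' he
    rw [Finset.mem_coe, Finset.mem_product] at hw hw'
    simp only at hw hw' he
    have hk := abs_le.1 (hx k hw.1)
    have hk' := abs_le.1 (hx k' hw'.1)
    have hab : α = β := by
      by_contra hne
      have h1 := hsep α hw.2 β hw'.2 hne
      have h2 : h α - h β = k' - k := by linarith
      rw [h2] at h1
      have : |k' - k| ≤ 2 * (W : ℤ) := abs_le.2 ⟨by linarith, by linarith⟩
      linarith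
    subst hab
    have : k = k' := by linarith
    rw [this]
  refine ⟨?_, fun r hr => ⟨?_, fun x hx => Nn_mul_sb83 h x y r hr (hinj x hx)⟩⟩
  · intro k hk
    have h2 : sb h y = 1 * sb h y := (one_mul _).symm
    rw [h2, Finsupp.mem_support_iff, coeff_mul_sb83] at hk
    obtain ⟨w, hw, hne⟩ := Finset.exists_ne_zero_of_sum_ne_zero hk
    rw [Finset.mem_product] at hw
    have hw1 : w.1 = 0 := by
      have := hw.1
      have e : (1 : AddMonoidAlgebra ℂ ℤ).coeff = Finsupp.single 0 1 := by
        rw [AddMonoidAlgebra.one_def]; rfl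
      rw [e, Finsupp.support_single_ne_zero _ one_ne_zero, Finset.mem_singleton] at this
      exact this
    have hk2 : w.1 + h w.2 = k := by
      by_contra hcon
      rw [if_neg hcon] at hne
      exact hne rfl
    exact ⟨w.2, hw.2, by rw [← hk2, hw1, zero_add]⟩
  · have h1 := Nn_mul_sb83 h (1 : RR) y r hr (hinj 1 (by
      intro k hk
      have e : (1 : AddMonoidAlgebra ℂ ℤ).coeff = Finsupp.single 0 1 := by
        rw [AddMonoidAlgebra.one_def]; rfl
      rw [e, Finsupp.support_single_ne_zero _ one_ne_zero, Finset.mem_singleton] at hk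
      rw [hk]; simp))
    rw [one_mul, Nn_one83, one_mul] at h1
    exact h1

end HM
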