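import Pool.Agent.H67.HM.Stm2

set_option autoImplicit false

open Polynomial MeasureTheory Filter Topology

namespace HM

theorem subs_aux83 {ι : Type} [Fintype ι] (e : ι → ℕ) (he : Function.Injective e)
    (v : ι → ℤ) (hv : v ≠ 0) (C : ℝ) :
    ∀ᶠ x : ℝ in atTop, C < |∑ i, (v i : ℝ) * x ^ (e i + 1)| := by
  classical
  set P : ℝ[X] := ∑ i, Polynomial.C (v i : ℝ) * Polynomial.X ^ (e i + 1) with hP
  have hcoef : ∀ i, P.coeff (e i + 1) = v i := by
    intro i
    rw [hP, Polynomial.finset_sum_coeff, Finset.sum_eq_single i]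
    · simp
    · intro j _ hj
      rw [Polynomial.coeff_C_mul, Polynomial.coeff_X_pow, if_neg, mul_zero]
      intro h
      exact hj (he (by omega))
    · intro h; exact absurd (Finset.mem_univ i) h
  obtain ⟨i, hi⟩ : ∃ i, v i ≠ 0 := by
    by_contra h; push Not at h; exact hv (funext h)
  have hdeg : 0 < P.degree := by
    have h1 : P.coeff (e i + 1) ≠ 0 := by
      rw [hcoef]; exact_mod_cast hi
    have h2 := Polynomial.le_degree_of_ne_zero h1
    refine lt_of_lt_of_le ?_ h2
    exact_mod_cast Nat.succ_pos _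
  have h3 := Polynomial.abs_tendsto_atTop P hdeg
  filter_upwards [h3.eventually_gt_atTop C] with x hx
  have h4 : eval x P = ∑ i, (v i : ℝ) * x ^ (e i + 1) := by
    rw [hP, Polynomial.eval_finset_sum]
    simp
  rw [← h4]; exact hx

theorem SUBS_proved : S_SUBS := by
  classical
  intro k N F W
  set e : Fin k × Fin N → ℕ := fun p => (finProdFinEquiv p : ℕ) with he
  have hinj : Function.Injective e := by
    intro p q h
    exact finProdFinEquiv.injective (Fin.val_injective h)
  have hev : ∀ᶠ x : ℝ in atTop, ∀ w ∈ F ×ˢ F, w.1 ≠ w.2 → (2 * (W : ℝ)) <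
      |∑ i : Fin k × Fin N, ((w.1 i.1 i.2 - w.2 i.1 i.2 : ℤ) : ℝ) * x ^ (e i + 1)| := by
    rw [Filter.eventually_all_finset]
    intro w _
    by_cases hw : w.1 = w.2
    · exact Filter.Eventually.of_forall fun x h => absurd hw h
    · have h := subs_aux83 e hinj (fun i => w.1 i.1 i.2 - w.2 i.1 i.2) (by
        intro h0
        apply hw
        funext a l
        have := congrFun h0 (a, l)
        simp only [Pi.zero_apply] at this
        omega) (2 * W)
      filter_upwards [h] with x hx _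
      exact hx
  have hev2 := tendsto_natCast_atTop_atTop.eventually hev
  obtain ⟨M, hM1, hM2, hM3⟩ := (hev2.and ((eventually_ge_atTop 1).and (eventually_ge_atTop W))).exists
  let h : (Fin k → Fin N → ℤ) →+ ℤ :=
    { toFun := fun α => ∑ i : Fin k × Fin N, α i.1 i.2 * (M : ℤ) ^ (e i + 1)
      map_zero' := by simp
      map_add' := by
        intro α β
        simp [add_mul, Finset.sum_add_distrib] }
  have hdef : ∀ α, h α = ∑ i : Fin k × Fin N, α i.1 i.2 * (M : ℤ) ^ (e i + 1) := fun α => rfl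
  refine ⟨h, ?_, ?_⟩
  · intro α hα β hβ hne
    have h1 := hM1 (α, β) (Finset.mem_product.2 ⟨hα, hβ⟩) hne
    have h2 : ((|h α - h β| : ℤ) : ℝ) =
        |∑ i : Fin k × Fin N, ((α i.1 i.2 - β i.1 i.2 : ℤ) : ℝ) * (M : ℝ) ^ (e i + 1)| := by
      rw [Int.cast_abs, hdef, hdef, ← Finset.sum_sub_distrib]
      push_cast
      congr 1
      refine Finset.sum_congr rfl fun i _ => ?_
      ring
    simp only at h1
    rw [← h2] at h1
    have h3 : (((2 * W : ℕ) : ℤ) : ℝ) < ((|h α - h β| : ℤ) : ℝ) := by push_cast; exact_mod_cast h1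
    have h4 := Int.cast_lt.1 h3
    push_cast at h4
    exact h4
  · intro α hα hne
    obtain ⟨a, l, hal⟩ : ∃ a l, α a l ≠ 0 := by
      by_contra hcon
      push Not at hcon
      exact hne (funext fun a => funext fun l => hcon a l)
    have hpos : ∀ a l, 0 ≤ α a l := fun a l => hα a l
    have hMz : (1 : ℤ) ≤ M := by exact_mod_cast hM2
    rw [hdef]
    have h1 : α a l * (M : ℤ) ^ (e (a, l) + 1) ≤
        ∑ i : Fin k × Fin N, α i.1 i.2 * (M : ℤ) ^ (e i + 1) :=
      Finset.single_le_sum (f := fun i : Fin k × Fin N => α i.1 i.2 * (M : ℤ) ^ (e i + 1))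
        (fun i _ => mul_nonneg (hpos _ _) (by positivity)) (Finset.mem_univ (a, l))
    refine le_trans ?_ h1
    have h2 : 1 ≤ α a l := by
      have := hpos a l
      omega
    have h3 : (M : ℤ) ≤ (M : ℤ) ^ (e (a, l) + 1) := by
      calc (M : ℤ) = (M : ℤ) ^ 1 := (pow_one _).symm
        _ ≤ (M : ℤ) ^ (e (a, l) + 1) := pow_le_pow_right₀ hMz (by omega)
    have h4 : (W : ℤ) ≤ M := by exact_mod_cast hM3
    nlinarith

end HM
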